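import Pool.Agent.PFD.StmtsD3

/-!
# REP (squad PFD, block D3): homomorphisms of an `ℓ'`-group to the residue algebra lift
-/

open scoped BigOperators

noncomputable section

namespace Pool.Agent.PFD.D3.H10

open Pool.Agent.PFD

section
variable {R F M : Type} [CommRing R] [Field F] (c : D2.Cdv R F) [AddCommGroup M] [Module R M]

theorem pi_pow_reg (n : ℕ) (r : R) (h : c.π ^ n * r = 0) : r = 0 := by
  induction n with
  | zero => simpa using h
  | succ n ih =>
    apply ih
    apply c.reg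
    rw [← mul_assoc, ← pow_succ', h]

variable [Module.Free R M]

theorem smul_reg (n : ℕ) (x : M) (h : c.π ^ n • x = 0) : x = 0 := by
  classical
  let b := Module.Free.chooseBasis R M
  apply b.repr.injective
  rw [map_zero]
  ext k
  have h1 : c.π ^ n * b.repr x k = 0 := by
    have h2 : b.repr (c.π ^ n • x) k = 0 := by rw [h, map_zero]; rfl
    rw [map_smul, Finsupp.smul_apply, smul_eq_mul] at h2
    exact h2
  exact pi_pow_reg c n _ h1

theorem sep_mod (x : M) (h : ∀ n : ℕ, ∃ y, x = c.π ^ n • y) : x = 0 := by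
  classical
  let b := Module.Free.chooseBasis R M
  apply b.repr.injective
  rw [map_zero]
  ext k
  apply c.sep
  intro n
  obtain ⟨y, hy⟩ := h n
  refine ⟨b.repr y k, ?_⟩
  rw [hy, map_smul, Finsupp.smul_apply, smul_eq_mul]

end

theorem q_pi_smul {R F M M0 : Type} [CommRing R] [Field F] {c : D2.Cdv R F} [Ring M]
    [Algebra R M] [Ring M0] [Algebra F M0] (f : D2.FibG M M0 c) (n : ℕ) (hn : 1 ≤ n) (y : M) :
    f.q (c.π ^ n • y) = 0 := by
  have h1 : c.κ c.π = 0 := (c.ker _).2 ⟨1, by rw [mul_one]⟩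
  rw [Algebra.smul_def, map_mul, f.sc, map_pow, h1, zero_pow (by omega), map_zero, zero_mul]

/-- congruence modulo `π` -/
def Cg {R F M : Type} [CommRing R] [Field F] (c : D2.Cdv R F) [AddCommGroup M] [Module R M]
    (x y : M) : Prop := ∃ z, x - y = c.π • z

section
variable {R F M : Type} [CommRing R] [Field F] {c : D2.Cdv R F} [Ring M] [Algebra R M]

theorem Cg.refl (x : M) : Cg c x x := ⟨0, by simp⟩

theorem Cg.of_eq {x y : M} (h : x = y) : Cg c x y := ⟨0, by simp [h]⟩

theorem Cg.symm {x y : M} (h : Cg c x y) : Cg c y x := by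
  obtain ⟨z, hz⟩ := h
  exact ⟨-z, by rw [smul_neg, ← hz]; abel⟩

theorem Cg.trans {x y w : M} (h : Cg c x y) (h' : Cg c y w) : Cg c x w := by
  obtain ⟨z, hz⟩ := h
  obtain ⟨z', hz'⟩ := h'
  exact ⟨z + z', by rw [smul_add, ← hz, ← hz']; abel⟩

theorem Cg.add {x y x' y' : M} (h : Cg c x y) (h' : Cg c x' y') : Cg c (x + x') (y + y') := by
  obtain ⟨z, hz⟩ := h
  obtain ⟨z', hz'⟩ := h'
  exact ⟨z + z', by rw [smul_add, ← hz, ← hz']; abel⟩

theorem Cg.sub {x y x' y' : M} (h : Cg c x y) (h' : Cg c x' y') : Cg c (x - x') (y - y') := by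
  obtain ⟨z, hz⟩ := h
  obtain ⟨z', hz'⟩ := h'
  exact ⟨z - z', by rw [smul_sub, ← hz, ← hz']; abel⟩

theorem Cg.mul_left (a : M) {x y : M} (h : Cg c x y) : Cg c (a * x) (a * y) := by
  obtain ⟨z, hz⟩ := h
  exact ⟨a * z, by rw [← mul_sub, hz, mul_smul_comm]⟩

theorem Cg.mul_right {x y : M} (h : Cg c x y) (a : M) : Cg c (x * a) (y * a) := by
  obtain ⟨z, hz⟩ := h
  exact ⟨z * a, by rw [← sub_mul, hz, smul_mul_assoc]⟩

theorem Cg.smul (r : R) {x y : M} (h : Cg c x y) : Cg c (r • x) (r • y) := by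
  obtain ⟨z, hz⟩ := h
  exact ⟨r • z, by rw [← smul_sub, hz, smul_comm]⟩

theorem Cg.sum {κ : Type} (s : Finset κ) {x y : κ → M} (h : ∀ k ∈ s, Cg c (x k) (y k)) :
    Cg c (∑ k ∈ s, x k) (∑ k ∈ s, y k) := by
  classical
  induction s using Finset.induction_on with
  | empty => exact Cg.refl _
  | insert k s hk ih =>
    rw [Finset.sum_insert hk, Finset.sum_insert hk]
    exact (h k (Finset.mem_insert_self _ _)).add
      (ih fun j hj => h j (Finset.mem_insert_of_mem hj))

end

section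
variable {R F M : Type} [CommRing R] [Field F] (c : D2.Cdv R F) [Ring M] [Algebra R M]
  [Module.Free R M]

/-- the averaging step -/
theorem step {E : Type} [Group E] [Fintype E] (hE : (Fintype.card E : F) ≠ 0) (n : ℕ)
    (hn : 1 ≤ n) (T : E → M) (hT : ∀ g h, ∃ y, T g * T h - T (g * h) = c.π ^ n • y)
    (hT1 : Cg c (T 1) 1) :
    ∃ S : E → M, ∀ g h, ∃ y, (T g + c.π ^ n • S g) * (T h + c.π ^ n • S h) -
      (T (g * h) + c.π ^ n • S (g * h)) = c.π ^ (n + 1) • y := by
  choose a ha using hT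
  obtain ⟨m, rfl⟩ := Nat.exists_eq_add_of_le' hn
  have hcg : ∀ g h, Cg c (T (g * h)) (T g * T h) := by
    intro g h
    refine Cg.symm ⟨c.π ^ m • a g h, ?_⟩
    rw [ha, smul_smul, pow_succ']
  -- the cocycle identity
  have hco : ∀ g h k, T g * a h k + a g (h * k) = a (g * h) k + a g h * T k := by
    intro g h k
    have h0 : c.π ^ (m + 1) • (T g * a h k + a g (h * k) - (a (g * h) k + a g h * T k)) = 0 := by
      rw [smul_sub, smul_add, smul_add, ← mul_smul_comm, ← smul_mul_assoc, ← ha, ← ha, ← ha,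
        ← ha, mul_assoc g h k]
      noncomm_ring
    exact sub_eq_zero.1 (smul_reg c _ _ h0)
  set b : E → M := fun g => ∑ k, a g k * T k⁻¹ with hb
  have hunit : IsUnit ((Fintype.card E : ℕ) : R) := by
    apply c.loc
    rw [map_natCast]
    exact hE
  obtain ⟨v, hv⟩ := hunit.exists_left_inv
  have hTT : ∀ k, Cg c (T k * T k⁻¹) 1 := by
    intro k
    have h1 := hcg k k⁻¹
    rw [mul_inv_cancel] at h1
    exact h1.symm.trans hT1
  have hmain : ∀ g h, Cg c (T g * b h - b (g * h) + b g * T h)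
      (((Fintype.card E : ℕ) : R) • a g h) := by
    intro g h
    have e1 : T g * b h - b (g * h) + ∑ k, a g (h * k) * T k⁻¹ =
        ∑ k, a g h * (T k * T k⁻¹) := by
      rw [hb]
      simp only [Finset.mul_sum]
      rw [← Finset.sum_sub_distrib, ← Finset.sum_add_distrib]
      refine Finset.sum_congr rfl fun k _ => ?_
      have h1 := hco g h k
      have h2 : T g * (a h k * T k⁻¹) - a (g * h) k * T k⁻¹ + a g (h * k) * T k⁻¹ =
          (T g * a h k + a g (h * k) - a (g * h) k) * T k⁻¹ := by noncomm_ring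
      rw [h2, h1]
      noncomm_ring
    have e2 : ∑ k, a g (h * k) * T k⁻¹ = ∑ l, a g l * T (l⁻¹ * h) := by
      refine Fintype.sum_bijective (fun k => h * k) (Group.mulLeft_bijective h) _ _ ?_
      intro k
      rw [mul_inv_rev, inv_mul_cancel_right]
    have e3 : Cg c (∑ l, a g l * T (l⁻¹ * h)) (b g * T h) := by
      rw [hb]
      simp only [Finset.sum_mul]
      refine Cg.sum _ fun l _ => ?_
      rw [mul_assoc]
      exact (hcg l⁻¹ h).mul_left (a g l)
    have e4 : Cg c (∑ k, a g h * (T k * T k⁻¹)) (((Fintype.card E : ℕ) : R) • a g h) := by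
      have h1 : (((Fintype.card E : ℕ) : R) • a g h) = ∑ _k : E, a g h * 1 := by
        rw [Finset.sum_const, Finset.card_univ, mul_one, Nat.cast_smul_eq_nsmul]
      rw [h1]
      exact Cg.sum _ fun k _ => (hTT k).mul_left _
    have e5 : Cg c (T g * b h - b (g * h) + b g * T h)
        (T g * b h - b (g * h) + ∑ k, a g (h * k) * T k⁻¹) := by
      refine (Cg.refl _).add ?_
      rw [e2]
      exact e3.symm
    rw [e1] at e5
    exact e5.trans e4
  set β : E → M := fun g => v • b g with hβ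
  refine ⟨fun g => -β g, fun g h => ?_⟩
  obtain ⟨y, hy⟩ := (hmain g h).smul v
  rw [smul_smul, hv, one_smul] at hy
  refine ⟨-y + c.π ^ m • (β g * β h), ?_⟩
  have h0 : v • (T g * b h - b (g * h) + b g * T h) = T g * β h - β (g * h) + β g * T h := by
    simp only [hβ, smul_add, smul_sub, mul_smul_comm, smul_mul_assoc]
  rw [h0] at hy
  have h1 : a g h - (T g * β h - β (g * h) + β g * T h) = -(c.π • y) := by
    rw [← hy]
    abel
  have h2 : (T g + c.π ^ (m + 1) • -β g) * (T h + c.π ^ (m + 1) • -β h) -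
      (T (g * h) + c.π ^ (m + 1) • -β (g * h)) =
      (T g * T h - T (g * h)) - c.π ^ (m + 1) • (T g * β h - β (g * h) + β g * T h) +
        c.π ^ (m + 1) • c.π ^ (m + 1) • (β g * β h) := by
    simp only [smul_neg, mul_add, add_mul, mul_neg, neg_mul, smul_add, smul_sub, mul_smul_comm,
      smul_mul_assoc]
    abel
  rw [h2, ha, ← smul_sub, h1, smul_neg, smul_smul, smul_add, smul_neg, ← pow_succ, smul_smul,
    smul_smul]
  congr 1
  rw [← pow_add, ← pow_add]
  congr 2
  ring

end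

theorem rep (hS : D2.SugStmt) : RepStmt := by
  intro R F M M0 E _ _ c _ _ _ _ _ _ f _ _ ρ0 hE
  classical
  choose t ht using f.surj
  let T0 : E → M := fun g => t (ρ0 g)
  have hT0 : ∀ g, f.q (T0 g) = ρ0 g := fun g => ht _
  let P : ℕ → (E → M) → Prop := fun n T =>
    (∀ g h, ∃ y, T g * T h - T (g * h) = c.π ^ n • y) ∧ (1 ≤ n → ∀ g, f.q (T g) = ρ0 g)
  have hcgq : ∀ x y : M, f.q x = f.q y → Cg c x y := by
    intro x y h
    obtain ⟨z, hz⟩ := f.ker (x - y) (by rw [map_sub, h, sub_self])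
    exact ⟨z, hz⟩
  have hq : ∀ (n : ℕ) (_ : 1 ≤ n) (T S : E → M) (g : E),
      f.q ((T + c.π ^ n • S) g) = f.q (T g) := by
    intro n hn T S g
    rw [Pi.add_apply, Pi.smul_apply, map_add, q_pi_smul f n hn, add_zero]
  have hinv : ∀ n x z, P n x → P n (x + c.π ^ n • z) := by
    intro n T S hT
    refine ⟨fun g h => ?_, fun hn g => ?_⟩
    · obtain ⟨y, hy⟩ := hT.1 g h
      refine ⟨y + (S g * T h + T g * S h - S (g * h) + c.π ^ n • (S g * S h)), ?_⟩
      simp only [Pi.add_apply, Pi.smul_apply]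
      rw [smul_add, ← hy]
      simp only [mul_add, add_mul, smul_add, smul_sub, mul_smul_comm, smul_mul_assoc]
      abel
    · rw [hq n hn]
      exact hT.2 hn g
  have hstep : ∀ n x, 1 ≤ n → P n x → ∃ z, P (n + 1) (x + c.π ^ n • z) := by
    intro n T hn hT
    have h1 : Cg c (T 1) 1 := by
      apply hcgq
      rw [hT.2 hn, map_one, map_one]
    obtain ⟨S, hS'⟩ := step c hE n hn T hT.1 h1
    refine ⟨S, fun g h => ?_, fun _ g => ?_⟩
    · simp only [Pi.add_apply, Pi.smul_apply]
      exact hS' g h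
    · rw [hq n hn]
      exact hT.2 hn g
  have h0 : P 1 T0 := by
    refine ⟨fun g h => ?_, fun _ g => hT0 g⟩
    obtain ⟨z, hz⟩ := hcgq (T0 g * T0 h) (T0 (g * h)) (by
      rw [map_mul, hT0, hT0, hT0, map_mul])
    exact ⟨z, by rw [pow_one]; exact hz⟩
  obtain ⟨z, hz⟩ := hS R F (E → M) c P hinv hstep T0 h0
  set T : E → M := T0 + c.π • z with hT
  have hmul : ∀ g h, T g * T h = T (g * h) := by
    intro g h
    apply sub_eq_zero.1
    apply sep_mod c
    intro n
    obtain ⟨y, hy⟩ := (hz (n + 1) (by omega)).1 g h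
    exact ⟨c.π • y, by rw [hy, smul_smul, ← pow_succ]⟩
  have hTq : ∀ g, f.q (T g) = ρ0 g := fun g => (hz 1 le_rfl).2 le_rfl g
  have hone : T 1 = 1 := by
    have h1 : (1 - T 1) * (1 - T 1) = 1 - T 1 := by
      have := hmul 1 1
      rw [mul_one] at this
      have h2 : (1 - T 1) * (1 - T 1) = 1 - T 1 - T 1 + T 1 * T 1 := by noncomm_ring
      rw [h2, this]
      abel
    obtain ⟨y, hy⟩ := hcgq 1 (T 1) (by rw [hTq, map_one, map_one])
    have h2 : (1 : M) - T 1 = 0 := by
      apply sep_mod c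
      intro n
      induction n with
      | zero => exact ⟨1 - T 1, by rw [pow_zero, one_smul]⟩
      | succ n ih =>
        obtain ⟨s, hs⟩ := ih
        refine ⟨y * s, ?_⟩
        rw [← h1]
        nth_rewrite 1 [hy]
        rw [hs, smul_mul_assoc, mul_smul_comm, smul_smul, ← pow_succ']
    exact (sub_eq_zero.1 h2).symm
  exact ⟨{ toFun := T, map_one' := hone, map_mul' := fun g h => (hmul g h).symm }, hTq⟩

end Pool.Agent.PFD.D3.H10
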