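import Pool.Agent.PFD.StmtsD2

/-!
Squad PFD, row SUG of part D2: successive approximation over a complete discrete valuation ring.
-/

namespace Pool.Agent.PFD.D2.H10

theorem sug : SugStmt := by
  classical
  intro R F M _ _ c _ _ _ _ P hinv hstep x hx
  -- the sequence of approximations
  have hstep' : ∀ n x, ∃ z, 1 ≤ n → P n x → P (n + 1) (x + c.π ^ n • z) := by
    intro n x
    by_cases h : 1 ≤ n ∧ P n x
    · obtain ⟨z, hz⟩ := hstep n x h.1 h.2
      exact ⟨z, fun _ _ => hz⟩
    · exact ⟨0, fun h1 h2 => absurd ⟨h1, h2⟩ h⟩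
  choose f hf using hstep'
  let xs : ℕ → M := fun n => Nat.rec x (fun n y => y + c.π ^ (n + 1) • f (n + 1) y) n
  have hxs : ∀ n, P (n + 1) (xs n) := by
    intro n
    induction n with
    | zero => exact hx
    | succ n ih => exact hf (n + 1) (xs n) (Nat.succ_le_succ (Nat.zero_le n)) ih
  let w : ℕ → M := fun n => f (n + 1) (xs n)
  have hsucc : ∀ n, xs (n + 1) = xs n + c.π ^ (n + 1) • w n := fun n => rfl
  have hsum : ∀ n, xs n = x + c.π • ∑ i ∈ Finset.range n, c.π ^ i • w i := by
    intro n
    induction n with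
    | zero =>
      rw [Finset.sum_range_zero, smul_zero, add_zero]
      rfl
    | succ n ih =>
      rw [hsucc, ih, Finset.sum_range_succ, smul_add, ← add_assoc, smul_smul, ← pow_succ']
  -- the limit
  let b := Module.Free.chooseBasis R M
  have hc : ∀ k, ∃ r, ∀ n : ℕ, ∃ s, r - ∑ i ∈ Finset.range n, c.π ^ i * b.repr (w i) k =
      c.π ^ n * s := fun k => c.cpl (fun i => b.repr (w i) k)
  choose r hr using hc
  choose s hs using hr
  refine ⟨∑ k, r k • b k, ?_⟩
  intro n hn
  obtain ⟨m, rfl⟩ := Nat.exists_eq_add_of_le' hn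
  have hw : ∀ i, w i = ∑ k, b.repr (w i) k • b k := fun i => (b.sum_repr (w i)).symm
  have h1 : ∑ k, r k • b k = ∑ i ∈ Finset.range m, c.π ^ i • w i + c.π ^ m • ∑ k, s k m • b k := by
    have h2 : ∑ i ∈ Finset.range m, c.π ^ i • w i =
        ∑ k, (∑ i ∈ Finset.range m, c.π ^ i * b.repr (w i) k) • b k := by
      have h3 : ∀ i ∈ Finset.range m, c.π ^ i • w i =
          ∑ k, (c.π ^ i * b.repr (w i) k) • b k := by
        intro i _
        refine (congrArg (fun y => c.π ^ i • y) (hw i)).trans ?_
        rw [Finset.smul_sum]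
        refine Finset.sum_congr rfl ?_
        intro k _
        rw [smul_smul]
      rw [Finset.sum_congr rfl h3, Finset.sum_comm]
      refine Finset.sum_congr rfl ?_
      intro k _
      rw [Finset.sum_smul]
    rw [h2, Finset.smul_sum, ← Finset.sum_add_distrib]
    refine Finset.sum_congr rfl ?_
    intro k _
    rw [smul_smul, ← hs k m, ← add_smul]
    congr 1
    ring
  rw [h1, smul_add, ← add_assoc, ← hsum m, smul_smul, ← pow_succ']
  exact hinv (m + 1) (xs m) _ (hxs m)

end Pool.Agent.PFD.D2.H10
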