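import Pool.Agent.PFD.StmtsD1

/-!
# TRC (squad PFD, block D1): the trace of the multiplication with the relative trace of `z`
-/

open scoped BigOperators

noncomputable section

namespace Pool.Agent.PFD.H10

open Pool.Agent.PFC.B1

section moves

variable {R B I X : Type} [CommRing R] [Ring B] [Algebra R B] [Fintype I] [AddCommGroup X]
  [Module R X]

theorem bil_zero1 {F : B → B → X} (hF : Bil R F) (b : B) : F 0 b = 0 := by
  have := hF.s1 0 0 b
  simpa using this

theorem bil_zero2 {F : B → B → X} (hF : Bil R F) (a : B) : F a 0 = 0 := by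
  have := hF.s2 0 a 0
  simpa using this

theorem bil_sum1 {F : B → B → X} (hF : Bil R F) {κ : Type} (s : Finset κ) (r : κ → R)
    (a : κ → B) (b : B) : F (∑ k ∈ s, r k • a k) b = ∑ k ∈ s, r k • F (a k) b := by
  classical
  induction s using Finset.induction_on with
  | empty => simp [bil_zero1 hF]
  | insert k s hk ih => rw [Finset.sum_insert hk, Finset.sum_insert hk, hF.a1, hF.s1, ih]

theorem bil_sum2 {F : B → B → X} (hF : Bil R F) {κ : Type} (s : Finset κ) (r : κ → R)
    (b : κ → B) (a : B) : F a (∑ k ∈ s, r k • b k) = ∑ k ∈ s, r k • F a (b k) := by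
  classical
  induction s using Finset.induction_on with
  | empty => simp [bil_zero2 hF]
  | insert k s hk ih => rw [Finset.sum_insert hk, Finset.sum_insert hk, hF.a2, hF.s2, ih]

/-- M1 -/
theorem mv1 (c : FS R B I) {F : B → B → X} (hF : Bil R F) (x : B) :
    ∑ i, F (x * c.b i) (c.b' i) = ∑ i, F (c.b i) (c.b' i * x) := by
  have h1 : ∀ i, F (x * c.b i) (c.b' i) = ∑ k, c.lam (c.b' k * (x * c.b i)) •
      F (c.b k) (c.b' i) := by
    intro i
    conv_lhs => rw [← c.h1 (x * c.b i)]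
    rw [bil_sum1 hF]
  have h2 : ∀ k, F (c.b k) (c.b' k * x) = ∑ i, c.lam (c.b' k * (x * c.b i)) •
      F (c.b k) (c.b' i) := by
    intro k
    conv_lhs => rw [← c.h2 (c.b' k * x)]
    rw [bil_sum2 hF]
    simp only [mul_assoc]
  rw [Finset.sum_congr rfl fun i _ => h1 i, Finset.sum_congr rfl fun k _ => h2 k,
    Finset.sum_comm]

/-- M2 -/
theorem mv2 (c : FS R B I) (cs : ∀ x y, c.lam (x * y) = c.lam (y * x)) {F : B → B → X}
    (hF : Bil R F) (x : B) :
    ∑ i, F (c.b i * x) (c.b' i) = ∑ i, F (c.b i) (x * c.b' i) := by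
  have h1 : ∀ i, F (c.b i * x) (c.b' i) = ∑ k, c.lam (c.b' k * (c.b i * x)) •
      F (c.b k) (c.b' i) := by
    intro i
    conv_lhs => rw [← c.h1 (c.b i * x)]
    rw [bil_sum1 hF]
  have h2 : ∀ k, F (c.b k) (x * c.b' k) = ∑ i, c.lam (c.b' k * (c.b i * x)) •
      F (c.b k) (c.b' i) := by
    intro k
    conv_lhs => rw [← c.h2 (x * c.b' k)]
    rw [bil_sum2 hF]
    refine Finset.sum_congr rfl fun i _ => ?_
    rw [mul_assoc x, cs x, mul_assoc]
  rw [Finset.sum_congr rfl fun i _ => h1 i, Finset.sum_congr rfl fun k _ => h2 k,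
    Finset.sum_comm]

/-- M3 -/
theorem mv3 (c : FS R B I) (cs : ∀ x y, c.lam (x * y) = c.lam (y * x)) {F : B → B → X}
    (hF : Bil R F) :
    ∑ i, F (c.b i) (c.b' i) = ∑ i, F (c.b' i) (c.b i) := by
  have h1 : ∀ i, F (c.b i) (c.b' i) = ∑ k, c.lam (c.b i * c.b k) • F (c.b' k) (c.b' i) := by
    intro i
    conv_lhs => rw [← c.h2 (c.b i)]
    rw [bil_sum1 hF]
  have h2 : ∀ k, F (c.b' k) (c.b k) = ∑ i, c.lam (c.b i * c.b k) • F (c.b' k) (c.b' i) := by
    intro k
    conv_lhs => rw [← c.h2 (c.b k)]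
    rw [bil_sum2 hF]
    refine Finset.sum_congr rfl fun i _ => ?_
    rw [cs]
  rw [Finset.sum_congr rfl fun i _ => h1 i, Finset.sum_congr rfl fun k _ => h2 k,
    Finset.sum_comm]

end moves

section net

variable {R B A I J N : Type} [CommRing R] [Ring B] [Algebra R B] [Ring A] [Algebra R A]
    [Fintype I] [Fintype J] [Fintype N] (D : Net R B A I J N)

/-- the bilinear function `T(a j(p) a' j(q) a'')` -/
theorem bil_T (a a' a'' : A) :
    Bil R (fun p q : B => D.T (a * D.j p * a' * D.j q * a'')) where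
  a1 p p' q := by simp [Net.T, mul_add, add_mul]
  a2 p q q' := by simp [Net.T, mul_add, add_mul]
  s1 r p q := by simp [Net.T]
  s2 r p q := by simp [Net.T]

/-- the centraliser of `B` -/
def CB : Submodule R A where
  carrier := {a | ∀ b, D.j b * a = a * D.j b}
  zero_mem' := fun b => by simp
  add_mem' := fun {a a'} h h' b => by rw [mul_add, add_mul, h, h']
  smul_mem' := fun r a h b => by rw [mul_smul_comm, smul_mul_assoc, h]

/-- the relative trace as a linear map -/
def rxL : A →ₗ[R] A where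
  toFun := D.rx
  map_add' a a' := by
    simp only [Net.rx, mul_add, add_mul, Finset.sum_add_distrib]
    abel
  map_smul' r a := by
    simp only [Net.rx, mul_smul_comm, smul_mul_assoc, ← Finset.smul_sum, RingHom.id_apply,
      smul_add]

theorem rxL_apply (a : A) : rxL D a = D.rx a := rfl

theorem rx_eq (a : A) : D.rx a = a + ∑ r, ∑ i, D.u i * D.x r * a * (D.y r * D.u' i) := rfl

/-- the projection to the complement -/
def qL : A →ₗ[R] A := LinearMap.id - D.j.toLinearMap ∘ₗ D.pr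

theorem qL_apply (a : A) : qL D a = a - D.j (D.pr a) := rfl

theorem pr_q (a : A) : D.pr (qL D a) = 0 := by rw [qL_apply, map_sub, D.pr_j, sub_self]

theorem q_mem {a : A} (h : ∀ b, D.j b * a = a * D.j b) : qL D a ∈ D.PB := by
  refine ⟨pr_q D a, fun b => ?_⟩
  have h1 : b * D.pr a = D.pr a * b := by rw [← D.pr_l, ← D.pr_r, h]
  rw [qL_apply, mul_sub, sub_mul, h, ← map_mul, ← map_mul, h1]

theorem T_comm (a b : A) : D.T (a * b) = D.T (b * a) := D.ds a b

theorem T_j_mul_y (b : B) (r : N) : D.T (D.j b * D.y r) = 0 := by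
  have : D.T (D.j b * D.y r) = D.c.lam (D.pr (D.j b * D.y r)) := D.ort _
  rw [this, D.pr_l, D.py, mul_zero, map_zero]

/-- the function `T(x_r p y_r q)` -/
def FT (r : N) (p q : B) : R := D.T (D.x r * D.j p * D.y r * D.j q * 1)

theorem bil_FT (r : N) : Bil R (FT D r) := bil_T D (D.x r) (D.y r) 1

theorem E_eq (z : B) :
    D.E z = ∑ r, ∑ i, ∑ k, FT D r (z * (D.c.b' i * D.c.b' k)) (D.c.b i * D.c.b k) := by
  unfold Net.E FT
  refine Finset.sum_congr rfl fun r _ => Finset.sum_congr rfl fun i _ =>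
    Finset.sum_congr rfl fun k _ => ?_
  have h : D.u' k * D.y r * D.u i * D.u k * D.x r * D.j z * D.u' i =
      (D.u' k * D.y r * D.u i * D.u k) * (D.x r * D.j z * D.u' i) := by
    simp only [mul_assoc]
  rw [h, T_comm]
  simp only [Net.u, Net.u', map_mul, mul_assoc, mul_one]

theorem kap_form (hK : KapStmt) {F : B → B → R} (hF : Bil R F) (z : B)
    (hz : ∀ a, z * a = a * z) :
    ∑ i, ∑ k, F (D.c.b i * D.c.b k) (z * (D.c.b' i * D.c.b' k)) =
      ∑ i, ∑ k, F (z * (D.c.b' i * D.c.b' k)) (D.c.b i * D.c.b k) := by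
  have hF2 : Bil R (fun p q : B => F p (z * q)) :=
    { a1 := fun p p' q => hF.a1 _ _ _
      a2 := fun p q q' => by rw [mul_add]; exact hF.a2 _ _ _
      s1 := fun r p q => hF.s1 _ _ _
      s2 := fun r p q => by rw [mul_smul_comm]; exact hF.s2 _ _ _ }
  have h1 := (hK R B A I J N R D (fun p q : B => F p (z * q)) hF2).1
  have h4 := (hK R B A I J N R D F hF).2.2.2.1 z hz
  rw [h4]
  exact h1.symm

/-- the first sum -/
theorem sum1 (hK : KapStmt) (z : B) (hz : ∀ a, z * a = a * z) :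
    ∑ r, ∑ l, ∑ i, FT D r (D.c.b l) (D.c.b' i * D.c.b' l * (z * D.c.b i)) = D.E z := by
  rw [E_eq]
  refine Finset.sum_congr rfl fun r _ => ?_
  have hF := bil_FT D r
  rw [← kap_form D hK hF z hz, Finset.sum_comm]
  have h1 : ∀ i, ∑ l, FT D r (D.c.b l) (D.c.b' i * D.c.b' l * (z * D.c.b i)) =
      ∑ l, FT D r (D.c.b l * D.c.b' i) (D.c.b' l * (z * D.c.b i)) := by
    intro i
    have hG : Bil R (fun p q : B => FT D r p (q * (z * D.c.b i))) :=
      { a1 := fun p p' q => hF.a1 _ _ _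
        a2 := fun p q q' => by rw [add_mul]; exact hF.a2 _ _ _
        s1 := fun r p q => hF.s1 _ _ _
        s2 := fun r p q => by rw [smul_mul_assoc]; exact hF.s2 _ _ _ }
    exact (mv2 D.c D.cs hG (D.c.b' i)).symm
  rw [Finset.sum_congr rfl fun i _ => h1 i, Finset.sum_comm]
  refine Finset.sum_congr rfl fun l _ => ?_
  have hG : Bil R (fun p q : B => FT D r (D.c.b l * p) (D.c.b' l * (z * q))) :=
    { a1 := fun p p' q => by rw [mul_add]; exact hF.a1 _ _ _
      a2 := fun p q q' => by rw [mul_add, mul_add]; exact hF.a2 _ _ _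
      s1 := fun r p q => by rw [mul_smul_comm]; exact hF.s1 _ _ _
      s2 := fun r p q => by rw [mul_smul_comm, mul_smul_comm]; exact hF.s2 _ _ _ }
  have h2 := mv3 D.c D.cs hG
  refine h2.symm.trans (Finset.sum_congr rfl fun i _ => ?_)
  show FT D r (D.c.b l * D.c.b i) (D.c.b' l * (z * D.c.b' i)) = _
  rw [← mul_assoc (D.c.b' l), ← hz (D.c.b' l), mul_assoc]

/-- the second sum -/
theorem sum2 (hK : KapStmt) (z : B) (hz : ∀ a, z * a = a * z) :
    ∑ r, ∑ i, ∑ l, FT D r (D.c.b' l * D.c.b' i * D.c.b l) (z * D.c.b i) = D.E z := by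
  rw [E_eq]
  refine Finset.sum_congr rfl fun r _ => ?_
  have hF := bil_FT D r
  rw [← kap_form D hK hF z hz, Finset.sum_comm]
  have h1 : ∀ l, ∑ i, FT D r (D.c.b' l * D.c.b' i * D.c.b l) (z * D.c.b i) =
      ∑ i, FT D r (D.c.b i * D.c.b l) (z * (D.c.b' i * D.c.b' l)) := by
    intro l
    have hG : Bil R (fun p q : B => FT D r (p * D.c.b l) (z * q)) :=
      { a1 := fun p p' q => by rw [add_mul]; exact hF.a1 _ _ _
        a2 := fun p q q' => by rw [mul_add]; exact hF.a2 _ _ _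
        s1 := fun r p q => by rw [smul_mul_assoc]; exact hF.s1 _ _ _
        s2 := fun r p q => by rw [mul_smul_comm]; exact hF.s2 _ _ _ }
    have hG' : Bil R (fun p q : B => FT D r (D.c.b' l * p * D.c.b l) (z * q)) :=
      { a1 := fun p p' q => by rw [mul_add, add_mul]; exact hF.a1 _ _ _
        a2 := fun p q q' => by rw [mul_add]; exact hF.a2 _ _ _
        s1 := fun r p q => by rw [mul_smul_comm, smul_mul_assoc]; exact hF.s1 _ _ _
        s2 := fun r p q => by rw [mul_smul_comm]; exact hF.s2 _ _ _ }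
    exact (mv3 D.c D.cs hG').symm.trans (mv1 D.c hG (D.c.b' l))
  rw [Finset.sum_congr rfl fun l _ => h1 l, Finset.sum_comm]

end net

section tr

variable {K B A I J N : Type} [Field K] [Ring B] [Algebra K B] [Module.Finite K B] [Ring A]
    [Algebra K A] [Module.Finite K A] [Fintype I] [Fintype J] [Fintype N] (D : Net K B A I J N)

/-- `b ↦ ∑ pr(x_r b y_r)` -/
def psL : B →ₗ[K] B :=
  ∑ r, D.pr ∘ₗ LinearMap.mulRight K (D.y r) ∘ₗ LinearMap.mulLeft K (D.x r) ∘ₗ D.j.toLinearMap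

omit [Module.Finite K B] [Module.Finite K A] in
theorem psL_apply (b : B) : psL D b = ∑ r, D.pr (D.x r * D.j b * D.y r) := by
  simp [psL, LinearMap.sum_apply]

omit [Module.Finite K B] [Module.Finite K A] in
theorem pr_rx (b : B) : D.pr (D.rx (D.j b)) = b + ∑ i, D.c.b i * psL D b * D.c.b' i := by
  rw [rx_eq, map_add, D.pr_j, map_sum]
  congr 1
  simp only [map_sum, psL_apply, Finset.mul_sum, Finset.sum_mul]
  rw [Finset.sum_comm]
  refine Finset.sum_congr rfl fun i _ => Finset.sum_congr rfl fun r _ => ?_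
  have h : D.u i * D.x r * D.j b * (D.y r * D.u' i) =
      D.j (D.c.b i) * (D.x r * D.j b * D.y r) * D.j (D.c.b' i) := by
    simp only [Net.u, Net.u', mul_assoc]
  rw [h, D.pr_r, D.pr_l]

omit [Module.Finite K B] [Module.Finite K A] in
theorem tzb_sum (hK : KapStmt) (z : B) (hz : ∀ a, z * a = a * z) :
    ∑ l, ∑ i, D.c.lam (D.c.b' l * (z * (D.c.b i * psL D (D.c.b l) * D.c.b' i))) = D.E z := by
  rw [← sum1 D hK z hz]
  have h : ∀ l i, D.c.lam (D.c.b' l * (z * (D.c.b i * psL D (D.c.b l) * D.c.b' i))) =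
      ∑ r, FT D r (D.c.b l) (D.c.b' i * D.c.b' l * (z * D.c.b i)) := by
    intro l i
    simp only [psL_apply, Finset.mul_sum, Finset.sum_mul, map_sum]
    refine Finset.sum_congr rfl fun r _ => ?_
    have h1 : D.c.lam (D.c.b' l * (z * (D.c.b i * D.pr (D.x r * D.j (D.c.b l) * D.y r) *
        D.c.b' i))) = D.T (D.j (D.c.b' l * (z * D.c.b i)) * (D.x r * D.j (D.c.b l) * D.y r) *
          D.j (D.c.b' i)) := by
      have h2 : D.T (D.j (D.c.b' l * (z * D.c.b i)) * (D.x r * D.j (D.c.b l) * D.y r) *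
          D.j (D.c.b' i)) = D.c.lam (D.pr (D.j (D.c.b' l * (z * D.c.b i)) *
            (D.x r * D.j (D.c.b l) * D.y r) * D.j (D.c.b' i))) := D.ort _
      rw [h2, D.pr_r, D.pr_l]
      simp only [mul_assoc]
    rw [h1, mul_assoc (D.j (D.c.b' l * (z * D.c.b i))), T_comm]
    unfold FT
    simp only [map_mul, mul_assoc, mul_one]
  rw [Finset.sum_congr rfl fun l _ => Finset.sum_congr rfl fun i _ => h l i]
  rw [Finset.sum_congr rfl fun l _ => Finset.sum_comm, Finset.sum_comm]

/-- `a ↦ ∑ b_i x_r a y_r b_i'` -/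
def sL : A →ₗ[K] A := rxL D - LinearMap.id

omit [Module.Finite K B] [Module.Finite K A] in
theorem sL_apply (a : A) : sL D a = ∑ r, ∑ i, D.u i * D.x r * a * (D.y r * D.u' i) := by
  simp [sL, rxL_apply, rx_eq]

/-- the map of the complement -/
def gL (z : B) : A →ₗ[K] A :=
  LinearMap.mulLeft K (D.j z) ∘ₗ qL D + qL D ∘ₗ LinearMap.mulLeft K (D.j z) ∘ₗ sL D

omit [Module.Finite K B] [Module.Finite K A] in
theorem gL_apply (z : B) (a : A) :
    gL D z a = D.j z * qL D a + qL D (D.j z * sL D a) := rfl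

omit [Module.Finite K B] [Module.Finite K A] in
theorem T_q (c : A) (b : B) (r : N) :
    D.T (qL D c * D.j b * D.y r) = D.T (c * D.j b * D.y r) := by
  rw [qL_apply, sub_mul, sub_mul, ← map_mul]
  have h : D.T (c * D.j b * D.y r - D.j (D.pr c * b) * D.y r) =
      D.T (c * D.j b * D.y r) - D.T (D.j (D.pr c * b) * D.y r) := map_sub D.d.lam _ _
  rw [h, T_j_mul_y, sub_zero]

omit [Module.Finite K B] [Module.Finite K A] in
theorem T_zq (z : B) (c : A) (b : B) (r : N) :
    D.T (D.j z * qL D c * D.j b * D.y r) = D.T (D.j z * c * D.j b * D.y r) := by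
  rw [qL_apply, mul_sub, sub_mul, sub_mul, ← map_mul, ← map_mul]
  have h : D.T (D.j z * c * D.j b * D.y r - D.j (z * D.pr c * b) * D.y r) =
      D.T (D.j z * c * D.j b * D.y r) - D.T (D.j (z * D.pr c * b) * D.y r) :=
    map_sub D.d.lam _ _
  rw [h, T_j_mul_y, sub_zero]

omit [Module.Finite K B] [Module.Finite K A] in
theorem tpb_sum (hK : KapStmt) (hD : DppStmt) (z : B) (hz : ∀ a, z * a = a * z) :
    ∑ r, ∑ i, ∑ l, D.T (gL D z (D.u i * D.x r * D.u' l * D.u' i) * D.u l * D.y r) =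
      D.E z + D.H4 D.x D.y D.x D.y (Lz K z) (I1 K B) (I1 K B) (I1 K B) := by
  have h0 : ∀ r i l, D.T (gL D z (D.u i * D.x r * D.u' l * D.u' i) * D.u l * D.y r) =
      FT D r (D.c.b' l * D.c.b' i * D.c.b l) (z * D.c.b i) +
      ∑ s, ∑ k, D.T (D.j z * (D.u k * D.x s * (D.u i * D.x r * D.u' l * D.u' i) *
        D.y s * D.u' k) * D.u l * D.y r) := by
    intro r i l
    set a := D.u i * D.x r * D.u' l * D.u' i with ha
    have h1 : D.T (gL D z a * D.u l * D.y r) = D.T (D.j z * qL D a * D.j (D.c.b l) * D.y r) +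
        D.T (qL D (D.j z * sL D a) * D.j (D.c.b l) * D.y r) := by
      rw [gL_apply, add_mul, add_mul]
      exact map_add D.d.lam _ _
    rw [h1, T_zq D z, T_q]
    congr 1
    · rw [ha]
      have h2 : D.j z * (D.u i * D.x r * D.u' l * D.u' i) * D.j (D.c.b l) * D.y r =
          (D.j z * D.u i) * (D.x r * D.u' l * D.u' i * D.j (D.c.b l) * D.y r) := by
        simp only [mul_assoc]
      rw [h2, T_comm]
      unfold FT
      simp only [Net.u, Net.u', map_mul, mul_assoc, mul_one]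
    · have h3 : D.j z * sL D a * D.j (D.c.b l) * D.y r = ∑ s, ∑ k, D.j z * (D.u k * D.x s * a *
          D.y s * D.u' k) * D.u l * D.y r := by
        rw [sL_apply]
        simp only [Finset.mul_sum, Finset.sum_mul, Net.u, Net.u', mul_assoc]
      rw [h3]
      have h4 : D.T (∑ s, ∑ k, D.j z * (D.u k * D.x s * a * D.y s * D.u' k) * D.u l * D.y r) =
          ∑ s, ∑ k, D.T (D.j z * (D.u k * D.x s * a * D.y s * D.u' k) * D.u l * D.y r) := by
        unfold Net.T
        rw [map_sum]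
        exact Finset.sum_congr rfl fun s _ => map_sum _ _ _
      exact h4
  rw [Finset.sum_congr rfl fun r _ => Finset.sum_congr rfl fun i _ =>
    Finset.sum_congr rfl fun l _ => h0 r i l]
  simp only [Finset.sum_add_distrib]
  rw [sum2 D hK z hz, ← hD K B A I J N D z hz]
  congr 1
  have e1 : ∀ r, ∑ i, ∑ l, ∑ s, ∑ k, D.T (D.j z * (D.u k * D.x s *
      (D.u i * D.x r * D.u' l * D.u' i) * D.y s * D.u' k) * D.u l * D.y r) =
      ∑ s, ∑ k, ∑ i, ∑ l, D.T (D.j z * (D.u k * D.x s *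
      (D.u i * D.x r * D.u' l * D.u' i) * D.y s * D.u' k) * D.u l * D.y r) := by
    intro r
    have e2 : ∀ i, ∑ l, ∑ s, ∑ k, D.T (D.j z * (D.u k * D.x s *
      (D.u i * D.x r * D.u' l * D.u' i) * D.y s * D.u' k) * D.u l * D.y r) =
      ∑ s, ∑ k, ∑ l, D.T (D.j z * (D.u k * D.x s *
      (D.u i * D.x r * D.u' l * D.u' i) * D.y s * D.u' k) * D.u l * D.y r) := by
      intro i
      rw [Finset.sum_comm]
      exact Finset.sum_congr rfl fun s _ => Finset.sum_comm
    rw [Finset.sum_congr rfl fun i _ => e2 i, Finset.sum_comm]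
    exact Finset.sum_congr rfl fun s _ => Finset.sum_comm
  rw [Finset.sum_congr rfl fun r _ => e1 r, Finset.sum_comm]
  exact Finset.sum_congr rfl fun s _ => Finset.sum_comm

end tr

theorem trc (hX : RtxStmt) (hU : RtuStmt) (hZ : TzbStmt) (hP : TpbStmt) (hD : DppStmt)
    (hK : KapStmt) : TrcStmt := by
  intro K B A I J N _ _ _ _ _ _ _ _ _ _ D z f g hz hf hg
  obtain ⟨s, hs⟩ := hX K B A I J N D
  have hrt : ∀ a, (∀ b, D.j b * a = a * D.j b) →
      (∀ c, c * D.rx a = D.rx a * c) ∧ ∀ w : A, (∀ c, w * c = c * w) →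
        D.rx (w * a) = w * D.rx a := by
    intro a ha
    have h := hU K B A _ _ D.j D.pr s s a ha
    refine ⟨fun c => ?_, fun w hw => ?_⟩
    · rw [← hs]
      exact h.2.1 c
    · rw [← hs, ← hs]
      exact h.2.2 w hw
  have hzj : ∀ b, D.j b * D.j z = D.j z * D.j b := fun b => by
    rw [← map_mul, ← map_mul, hz]
  have hcen : ∀ (w : Subalgebra.center K A) (a : A), (w : A) * a = a * w := fun w a =>
    ((Subalgebra.mem_center_iff.1 w.2) a).symm
  have hcenB : ∀ (w : Subalgebra.center K B) (b : B), (w : B) * b = b * w := fun w b =>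
    ((Subalgebra.mem_center_iff.1 w.2) b).symm
  -- the maps
  let al : Subalgebra.center K A →ₗ[K] CB D :=
    { toFun := fun w => ⟨D.j z * w, fun b => by
        rw [← mul_assoc, hzj, mul_assoc, mul_assoc, hcen w (D.j b)]⟩
      map_add' := fun w w' => Subtype.ext (mul_add _ _ _)
      map_smul' := fun r w => Subtype.ext (mul_smul_comm _ _ _) }
  let be : CB D →ₗ[K] Subalgebra.center K A :=
    { toFun := fun c => ⟨D.rx c, Subalgebra.mem_center_iff.2 fun a => (hrt c c.2).1 a⟩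
      map_add' := fun c c' => Subtype.ext ((rxL D).map_add _ _)
      map_smul' := fun r c => Subtype.ext ((rxL D).map_smul _ _) }
  have hfab : f = be ∘ₗ al := by
    apply LinearMap.ext
    intro w
    apply Subtype.ext
    show (f w : A) = D.rx (D.j z * w)
    rw [hf, ← hcen w (D.j z), (hrt (D.j z) hzj).2 w (fun c => hcen w c), hcen]
  have htr1 : LinearMap.trace K _ f = LinearMap.trace K (CB D) (al ∘ₗ be) := by
    rw [hfab, LinearMap.trace_comp_comm']
  let i1 : Subalgebra.center K B →ₗ[K] CB D :=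
    { toFun := fun w => ⟨D.j w, fun b => by rw [← map_mul, ← map_mul, hcenB]⟩
      map_add' := fun w w' => Subtype.ext (map_add _ _ _)
      map_smul' := fun r w => Subtype.ext (map_smul _ _ _) }
  let p1 : CB D →ₗ[K] Subalgebra.center K B :=
    { toFun := fun c => ⟨D.pr c, Subalgebra.mem_center_iff.2 fun b => by
        rw [← D.pr_l, ← D.pr_r, c.2 b]⟩
      map_add' := fun w w' => Subtype.ext (map_add _ _ _)
      map_smul' := fun r w => Subtype.ext (map_smul _ _ _) }
  let i2 : D.PB →ₗ[K] CB D :=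
    { toFun := fun p => ⟨p, p.2.2⟩
      map_add' := fun w w' => rfl
      map_smul' := fun r w => rfl }
  let p2 : CB D →ₗ[K] D.PB :=
    { toFun := fun c => ⟨qL D c, q_mem D c.2⟩
      map_add' := fun w w' => Subtype.ext ((qL D).map_add _ _)
      map_smul' := fun r w => Subtype.ext ((qL D).map_smul _ _) }
  have hid : i1 ∘ₗ p1 + i2 ∘ₗ p2 = LinearMap.id := by
    apply LinearMap.ext
    intro c
    apply Subtype.ext
    show D.j (D.pr c) + qL D c = c
    rw [qL_apply]
    abel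
  set H := al ∘ₗ be with hH
  have hHap : ∀ c, (H c : A) = D.j z * D.rx c := fun c => rfl
  have htr2 : LinearMap.trace K (CB D) H =
      LinearMap.trace K _ (p1 ∘ₗ H ∘ₗ i1) + LinearMap.trace K _ (p2 ∘ₗ H ∘ₗ i2) := by
    have h1 : H = (H ∘ₗ i1) ∘ₗ p1 + (H ∘ₗ i2) ∘ₗ p2 := by
      calc H = H ∘ₗ LinearMap.id := (LinearMap.comp_id H).symm
        _ = H ∘ₗ (i1 ∘ₗ p1 + i2 ∘ₗ p2) := by rw [hid]
        _ = H ∘ₗ (i1 ∘ₗ p1) + H ∘ₗ (i2 ∘ₗ p2) := LinearMap.comp_add _ _ _
        _ = (H ∘ₗ i1) ∘ₗ p1 + (H ∘ₗ i2) ∘ₗ p2 := rfl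
    conv_lhs => rw [h1]
    rw [map_add, LinearMap.trace_comp_comm' p1 (H ∘ₗ i1),
      LinearMap.trace_comp_comm' p2 (H ∘ₗ i2)]
  -- the part of `B`
  have htr3 : LinearMap.trace K _ (p1 ∘ₗ H ∘ₗ i1) = LinearMap.trace K _ g + D.E z := by
    have h1 : p1 ∘ₗ H ∘ₗ i1 = g + (p1 ∘ₗ H ∘ₗ i1 - g) := by abel
    rw [h1, map_add]
    congr 1
    rw [hZ K B A I J N D z (psL D) (p1 ∘ₗ H ∘ₗ i1 - g) hz ?_, tzb_sum D hK z hz]
    intro w
    have h2 : (((p1 ∘ₗ H ∘ₗ i1 - g) w : Subalgebra.center K B) : B) =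
        D.pr (D.j z * D.rx (D.j w)) - (g w : B) := rfl
    rw [h2, D.pr_l, pr_rx, hg, mul_add, add_sub_cancel_left]
  -- the part of the complement
  have htr4 : LinearMap.trace K _ (p2 ∘ₗ H ∘ₗ i2) =
      D.E z + D.H4 D.x D.y D.x D.y (Lz K z) (I1 K B) (I1 K B) (I1 K B) := by
    rw [hP K B A I J N D (gL D z) (p2 ∘ₗ H ∘ₗ i2) ?_ ?_, tpb_sum D hK hD z hz]
    · intro a ha
      have hs : ∀ b, D.j b * sL D a = sL D a * D.j b := by
        intro b
        have h1 : sL D a = D.rx a - a := rfl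
        rw [h1, mul_sub, sub_mul, ha b, (hrt a ha).1 (D.j b)]
      rw [gL_apply]
      refine Submodule.add_mem _ ?_ (q_mem D fun b => ?_)
      · have h1 := q_mem D ha
        refine ⟨?_, fun b => ?_⟩
        · rw [D.pr_l, h1.1, mul_zero]
        · rw [← mul_assoc, hzj, mul_assoc, h1.2 b, mul_assoc]
      · rw [← mul_assoc, hzj, mul_assoc, hs b, mul_assoc]
    · intro p
      have h1 : ((p2 ∘ₗ H ∘ₗ i2) p : A) = qL D (D.j z * D.rx p) := rfl
      have h2 : D.rx (p : A) = p + sL D p := by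
        show D.rx (p : A) = p + (D.rx (p : A) - p)
        abel
      have h3 : qL D (p : A) = p := by rw [qL_apply, p.2.1, map_zero, sub_zero]
      have h4 : qL D (D.j z * (p : A)) = D.j z * p := by
        rw [qL_apply, D.pr_l, p.2.1, mul_zero, map_zero, sub_zero]
      rw [h1, h2, mul_add, map_add, h4, gL_apply, h3]
  rw [htr1, htr2, htr3, htr4]
  ring

end Pool.Agent.PFD.H10
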